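import Mathlib

/-!
# Primitively generated Hopf algebras given by generators and relations
-/

set_option autoImplicit false

open scoped TensorProduct

namespace Pool.Agent.R710.Prim

open MulOpposite

section generic

variable {k : Type*} [Field k] {B : Type*} [Ring B] [Algebra k B]

/-- The data for a Hopf algebra that is generated by a set of primitive elements. -/
structure PrimData (k : Type*) [Field k] (B : Type*) [Ring B] [Algebra k B] where
  /-- generators -/
  G : Set B
  adjoin_eq : Algebra.adjoin k G = ⊤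
  /-- comultiplication -/
  Δ : B →ₐ[k] B ⊗[k] B
  Δ_eq : ∀ x ∈ G, Δ x = x ⊗ₜ 1 + 1 ⊗ₜ x
  /-- counit -/
  ε : B →ₐ[k] k
  ε_eq : ∀ x ∈ G, ε x = 0
  /-- antipode -/
  S : B →ₐ[k] Bᵐᵒᵖ
  S_eq : ∀ x ∈ G, S x = op (-x)

/-- The bialgebra structure. -/
@[reducible] noncomputable def PrimData.bialgebra (P : PrimData k B) : Bialgebra k B :=
  Bialgebra.ofAlgHom P.Δ P.ε
    (by
      refine AlgHom.ext_of_adjoin_eq_top P.adjoin_eq fun x hx => ?_
      simp [P.Δ_eq x hx, TensorProduct.add_tmul, TensorProduct.tmul_add,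
        Algebra.TensorProduct.one_def]
      abel)
    (by
      refine AlgHom.ext_of_adjoin_eq_top P.adjoin_eq fun x hx => ?_
      simp [P.Δ_eq x hx, P.ε_eq x hx])
    (by
      refine AlgHom.ext_of_adjoin_eq_top P.adjoin_eq fun x hx => ?_
      simp [P.Δ_eq x hx, P.ε_eq x hx])

/-- The antipode as a linear map. -/
noncomputable def PrimData.anti (P : PrimData k B) : B →ₗ[k] B :=
  (opLinearEquiv k).symm.toLinearMap ∘ₗ P.S.toLinearMap

theorem PrimData.anti_mul (P : PrimData k B) (x y : B) : P.anti (x * y) = P.anti y * P.anti x := by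
  simp [PrimData.anti]

theorem PrimData.anti_one (P : PrimData k B) : P.anti 1 = 1 := by
  simp [PrimData.anti]

theorem PrimData.anti_gen (P : PrimData k B) {x : B} (hx : x ∈ P.G) : P.anti x = -x := by
  simp [PrimData.anti, P.S_eq x hx]

/-- `x ⊗ y ↦ S(x) y` -/
noncomputable def PrimData.F (P : PrimData k B) : B ⊗[k] B →ₗ[k] B :=
  LinearMap.mul' k B ∘ₗ P.anti.rTensor B

/-- `x ⊗ y ↦ x S(y)` -/
noncomputable def PrimData.F' (P : PrimData k B) : B ⊗[k] B →ₗ[k] B :=
  LinearMap.mul' k B ∘ₗ P.anti.lTensor B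

theorem PrimData.F_tmul (P : PrimData k B) (x y : B) : P.F (x ⊗ₜ y) = P.anti x * y := by
  simp [PrimData.F]

theorem PrimData.F'_tmul (P : PrimData k B) (x y : B) : P.F' (x ⊗ₜ y) = x * P.anti y := by
  simp [PrimData.F']

theorem PrimData.F_mul (P : PrimData k B) (u : B ⊗[k] B) (x y : B) :
    P.F (u * x ⊗ₜ y) = P.anti x * P.F u * y := by
  induction u with
  | zero => simp
  | add a b ha hb => rw [add_mul, map_add, ha, hb, map_add, mul_add, add_mul]
  | tmul a b =>
    rw [Algebra.TensorProduct.tmul_mul_tmul, P.F_tmul, P.F_tmul, P.anti_mul]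
    noncomm_ring

theorem PrimData.F'_mul (P : PrimData k B) (u : B ⊗[k] B) (x y : B) :
    P.F' (x ⊗ₜ y * u) = x * P.F' u * P.anti y := by
  induction u with
  | zero => simp
  | add a b ha hb => rw [mul_add, map_add, ha, hb, map_add, mul_add, add_mul]
  | tmul a b =>
    rw [Algebra.TensorProduct.tmul_mul_tmul, P.F'_tmul, P.F'_tmul, P.anti_mul]
    noncomm_ring

theorem PrimData.F_mul_of (P : PrimData k B) (u v : B ⊗[k] B) (c : k)
    (h : P.F u = algebraMap k B c) : P.F (u * v) = c • P.F v := by
  induction v with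
  | zero => simp
  | add a b ha hb => rw [mul_add, map_add, ha, hb, map_add, smul_add]
  | tmul a b =>
    rw [P.F_mul, h, P.F_tmul, ← Algebra.commutes, mul_assoc, ← Algebra.smul_def]

theorem PrimData.F'_mul_of (P : PrimData k B) (u v : B ⊗[k] B) (c : k)
    (h : P.F' v = algebraMap k B c) : P.F' (u * v) = c • P.F' u := by
  induction u with
  | zero => simp
  | add a b ha hb => rw [add_mul, map_add, ha, hb, map_add, smul_add]
  | tmul a b =>
    rw [P.F'_mul, h, P.F'_tmul, ← Algebra.commutes, mul_assoc, ← Algebra.smul_def]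

theorem PrimData.F_Δ (P : PrimData k B) (x : B) : P.F (P.Δ x) = algebraMap k B (P.ε x) := by
  have hx : x ∈ Algebra.adjoin k P.G := by rw [P.adjoin_eq]; trivial
  induction hx using Algebra.adjoin_induction with
  | mem x hx =>
    rw [P.Δ_eq x hx, P.ε_eq x hx, map_add, P.F_tmul, P.F_tmul, P.anti_gen hx, P.anti_one]
    simp
  | algebraMap r =>
    rw [AlgHom.commutes, AlgHom.commutes, Algebra.TensorProduct.algebraMap_apply, P.F_tmul, mul_one]
    have : P.anti (algebraMap k B r) = algebraMap k B r := by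
      rw [Algebra.algebraMap_eq_smul_one, map_smul, P.anti_one]
    rw [this]
    rfl
  | add x y _ _ hx hy => rw [map_add, map_add, hx, hy, map_add, map_add]
  | mul x y _ _ hx hy =>
    rw [map_mul, P.F_mul_of _ _ _ hx, hy, map_mul, map_mul, Algebra.smul_def]

theorem PrimData.F'_Δ (P : PrimData k B) (x : B) : P.F' (P.Δ x) = algebraMap k B (P.ε x) := by
  have hx : x ∈ Algebra.adjoin k P.G := by rw [P.adjoin_eq]; trivial
  induction hx using Algebra.adjoin_induction with
  | mem x hx =>
    rw [P.Δ_eq x hx, P.ε_eq x hx, map_add, P.F'_tmul, P.F'_tmul, P.anti_gen hx, P.anti_one]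
    simp
  | algebraMap r =>
    rw [AlgHom.commutes, AlgHom.commutes, Algebra.TensorProduct.algebraMap_apply, P.F'_tmul,
      P.anti_one, mul_one]
    rfl
  | add x y _ _ hx hy => rw [map_add, map_add, hx, hy, map_add, map_add]
  | mul x y _ _ hx hy =>
    rw [map_mul, P.F'_mul_of _ _ _ hy, hx, map_mul, map_mul, Algebra.smul_def,
      (Algebra.commutes _ _)]

/-- The Hopf algebra structure. -/
@[reducible] noncomputable def PrimData.hopf (P : PrimData k B) : HopfAlgebra k B :=
  { P.bialgebra with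
    antipode := P.anti
    mul_antipode_rTensor_comul := by
      ext x
      exact P.F_Δ x
    mul_antipode_lTensor_comul := by
      ext x
      exact P.F'_Δ x }

end generic

section presented

variable (k : Type*) [Field k] {X : Type*} (rel : FreeAlgebra k X → FreeAlgebra k X → Prop)

/-- the algebra with the generators `X` and the relations `rel` -/
abbrev Pres : Type _ := RingQuot rel

/-- the generators -/
def gen (x : X) : Pres k rel := RingQuot.mkAlgHom k rel (FreeAlgebra.ι k x)

/-- The universal property. -/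
def lift {B : Type*} [Semiring B] [Algebra k B] (b : X → B)
    (h : ∀ ⦃x y⦄, rel x y → FreeAlgebra.lift k b x = FreeAlgebra.lift k b y) : Pres k rel →ₐ[k] B :=
  RingQuot.liftAlgHom k ⟨FreeAlgebra.lift k b, h⟩

theorem lift_gen {B : Type*} [Semiring B] [Algebra k B] (b : X → B)
    (h : ∀ ⦃x y⦄, rel x y → FreeAlgebra.lift k b x = FreeAlgebra.lift k b y) (x : X) :
    lift k rel b h (gen k rel x) = b x := by
  rw [lift, gen, RingQuot.liftAlgHom_mkAlgHom_apply, FreeAlgebra.lift_ι_apply]

theorem adjoin_gen : Algebra.adjoin k (Set.range (gen k rel)) = ⊤ := by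
  have h1 : Set.range (gen k rel) =
      (RingQuot.mkAlgHom k rel) '' (Set.range (FreeAlgebra.ι k (X := X))) := by
    rw [← Set.range_comp]
    rfl
  rw [h1, ← AlgHom.map_adjoin, FreeAlgebra.adjoin_range_ι, Algebra.map_top,
    AlgHom.range_eq_top]
  exact RingQuot.mkAlgHom_surjective k rel

/-- The relations are compatible with primitive generators. -/
structure PrimRel : Prop where
  Δ : ∀ ⦃x y⦄, rel x y →
    FreeAlgebra.lift k (fun i => gen k rel i ⊗ₜ[k] (1 : Pres k rel) +
      (1 : Pres k rel) ⊗ₜ[k] gen k rel i) x =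
    FreeAlgebra.lift k (fun i => gen k rel i ⊗ₜ[k] (1 : Pres k rel) +
      (1 : Pres k rel) ⊗ₜ[k] gen k rel i) y
  ε : ∀ ⦃x y⦄, rel x y →
    FreeAlgebra.lift k (fun _ => (0 : k)) x = FreeAlgebra.lift k (fun _ => (0 : k)) y
  S : ∀ ⦃x y⦄, rel x y →
    FreeAlgebra.lift k (fun i => op (-gen k rel i)) x =
    FreeAlgebra.lift k (fun i => op (-gen k rel i)) y

variable {k rel}

/-- The Hopf algebra data. -/
noncomputable def PrimRel.data (h : PrimRel k rel) : PrimData k (Pres k rel) where
  G := Set.range (gen k rel)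
  adjoin_eq := adjoin_gen k rel
  Δ := lift k rel _ h.Δ
  Δ_eq := by
    rintro _ ⟨i, rfl⟩
    rw [lift_gen]
  ε := lift k rel _ h.ε
  ε_eq := by
    rintro _ ⟨i, rfl⟩
    rw [lift_gen]
  S := lift k rel _ h.S
  S_eq := by
    rintro _ ⟨i, rfl⟩
    rw [lift_gen]

end presented

end Pool.Agent.R710.Prim
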