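import Mathlib
import Pool.Agent.R710.Prim.Hopf

/-!
# A Hopf algebra of dimension eight in characteristic two and its complements
-/

set_option autoImplicit false

open scoped TensorProduct

namespace Pool.Agent.R710.Prim

open MulOpposite FreeAlgebra

variable (k : Type*) [Field k]

/-- relations of `E`: `0 = z`, `1 = d`, `2 = y` -/
inductive RelE : FreeAlgebra k (Fin 3) → FreeAlgebra k (Fin 3) → Prop
  | zz : RelE (ι k 0 * ι k 0) (ι k 0)
  | dd : RelE (ι k 1 * ι k 1) 0
  | yy : RelE (ι k 2 * ι k 2) 0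
  | zd : RelE (ι k 0 * ι k 1) (ι k 1 * ι k 0)
  | zy : RelE (ι k 0 * ι k 2) (ι k 2 * ι k 0)
  | dy : RelE (ι k 1 * ι k 2 + ι k 2 * ι k 1) (ι k 0)

/-- relations of `H w`: `0 = z`, `1 = Y` -/
inductive RelH (w : k) : FreeAlgebra k (Fin 2) → FreeAlgebra k (Fin 2) → Prop
  | zz : RelH w (ι k 0 * ι k 0) (ι k 0)
  | zY : RelH w (ι k 0 * ι k 1) (ι k 1 * ι k 0)
  | YY : RelH w (ι k 1 * ι k 1) (w • ι k 0)

/-- relations of `A` -/
inductive RelA : FreeAlgebra k Unit → FreeAlgebra k Unit → Prop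
  | dd : RelA (ι k () * ι k ()) 0

theorem E_zz : gen k (RelE k) 0 * gen k (RelE k) 0 = gen k (RelE k) 0 := by
  rw [gen, ← map_mul]; exact RingQuot.mkAlgHom_rel k RelE.zz

theorem E_dd : gen k (RelE k) 1 * gen k (RelE k) 1 = 0 := by
  rw [gen, ← map_mul, ← map_zero (RingQuot.mkAlgHom k (RelE k))]
  exact RingQuot.mkAlgHom_rel k RelE.dd

theorem E_yy : gen k (RelE k) 2 * gen k (RelE k) 2 = 0 := by
  rw [gen, ← map_mul, ← map_zero (RingQuot.mkAlgHom k (RelE k))]
  exact RingQuot.mkAlgHom_rel k RelE.yy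

theorem E_zd : gen k (RelE k) 0 * gen k (RelE k) 1 = gen k (RelE k) 1 * gen k (RelE k) 0 := by
  rw [gen, gen, ← map_mul, ← map_mul]; exact RingQuot.mkAlgHom_rel k RelE.zd

theorem E_zy : gen k (RelE k) 0 * gen k (RelE k) 2 = gen k (RelE k) 2 * gen k (RelE k) 0 := by
  rw [gen, gen, ← map_mul, ← map_mul]; exact RingQuot.mkAlgHom_rel k RelE.zy

theorem E_dy : gen k (RelE k) 1 * gen k (RelE k) 2 + gen k (RelE k) 2 * gen k (RelE k) 1 =
    gen k (RelE k) 0 := by
  rw [gen, gen, gen, ← map_mul, ← map_mul, ← map_add]; exact RingQuot.mkAlgHom_rel k RelE.dy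

variable {k} in
theorem H_zz (w : k) : gen k (RelH k w) 0 * gen k (RelH k w) 0 = gen k (RelH k w) 0 := by
  rw [gen, ← map_mul]; exact RingQuot.mkAlgHom_rel k RelH.zz

variable {k} in
theorem H_zY (w : k) : gen k (RelH k w) 0 * gen k (RelH k w) 1 =
    gen k (RelH k w) 1 * gen k (RelH k w) 0 := by
  rw [gen, gen, ← map_mul, ← map_mul]; exact RingQuot.mkAlgHom_rel k RelH.zY

variable {k} in
theorem H_YY (w : k) : gen k (RelH k w) 1 * gen k (RelH k w) 1 = w • gen k (RelH k w) 0 := by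
  rw [gen, gen, ← map_mul, ← map_smul]; exact RingQuot.mkAlgHom_rel k RelH.YY

theorem A_dd : gen k (RelA k) () * gen k (RelA k) () = 0 := by
  rw [gen, ← map_mul, ← map_zero (RingQuot.mkAlgHom k (RelA k))]
  exact RingQuot.mkAlgHom_rel k RelA.dd

theorem char_two_smul {M : Type*} [AddCommGroup M] [Module k M] [CharP k 2] (x : M) :
    x + x = 0 := by
  rw [← two_smul k x, CharTwo.two_eq_zero, zero_smul]

section

variable {k} {B : Type*} [Ring B] [Algebra k B]

/-- `x ⊗ 1 + 1 ⊗ x` -/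
def prim (k : Type*) [Field k] {B : Type*} [Ring B] [Algebra k B] (x : B) : B ⊗[k] B :=
  x ⊗ₜ 1 + 1 ⊗ₜ x

theorem prim_mul (x y : B) : prim k x * prim k y =
    (x * y) ⊗ₜ 1 + 1 ⊗ₜ (x * y) + (x ⊗ₜ y + y ⊗ₜ x) := by
  rw [prim, prim, add_mul, mul_add, mul_add]
  simp only [Algebra.TensorProduct.tmul_mul_tmul, one_mul, mul_one]
  abel

theorem prim_zero : prim k (0 : B) = 0 := by simp [prim]

theorem prim_smul (c : k) (x : B) : prim k (c • x) = c • prim k x := by
  rw [prim, prim, smul_add, TensorProduct.smul_tmul', TensorProduct.tmul_smul]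

theorem prim_sq [CharP k 2] (x : B) : prim k x * prim k x = prim k (x * x) := by
  rw [prim_mul, char_two_smul k (x ⊗ₜ[k] x), add_zero, prim]

theorem prim_comm (x y : B) (h : x * y = y * x) : prim k x * prim k y = prim k y * prim k x := by
  rw [prim_mul, prim_mul, h]
  abel

theorem prim_bracket [CharP k 2] (x y : B) : prim k x * prim k y + prim k y * prim k x =
    prim k (x * y + y * x) := by
  rw [prim_mul, prim_mul, prim]
  have := char_two_smul k (x ⊗ₜ[k] y + y ⊗ₜ[k] x)
  have h2 : (y ⊗ₜ[k] x + x ⊗ₜ[k] y) = (x ⊗ₜ[k] y + y ⊗ₜ[k] x) := by abel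
  rw [h2]
  rw [TensorProduct.add_tmul, TensorProduct.tmul_add]
  calc _ = ((x * y) ⊗ₜ[k] (1 : B) + (y * x) ⊗ₜ[k] (1 : B) + ((1 : B) ⊗ₜ[k] (x * y) +
        (1 : B) ⊗ₜ[k] (y * x))) + ((x ⊗ₜ[k] y + y ⊗ₜ[k] x) + (x ⊗ₜ[k] y + y ⊗ₜ[k] x)) := by abel
    _ = _ := by rw [this, add_zero]

end

theorem primRelE [CharP k 2] : PrimRel k (RelE k) where
  Δ := by
    intro x y h
    show FreeAlgebra.lift k (fun i => prim k (gen k (RelE k) i)) x =
      FreeAlgebra.lift k (fun i => prim k (gen k (RelE k) i)) y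
    cases h <;> simp only [map_mul, map_add, map_zero, FreeAlgebra.lift_ι_apply]
    · rw [prim_sq, E_zz]
    · rw [prim_sq, E_dd, prim_zero]
    · rw [prim_sq, E_yy, prim_zero]
    · exact prim_comm _ _ (E_zd k)
    · exact prim_comm _ _ (E_zy k)
    · rw [prim_bracket, E_dy]
  ε := by
    intro x y h
    cases h <;> simp
  S := by
    intro x y h
    have hneg : ∀ x : Pres k (RelE k), -x = x := fun x => by
      rw [neg_eq_iff_add_eq_zero]; exact char_two_smul k x
    simp only [hneg]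
    cases h <;> simp only [map_mul, map_add, map_zero, FreeAlgebra.lift_ι_apply, ← op_mul, ← op_add]
    · rw [E_zz]
    · rw [E_dd, op_zero]
    · rw [E_yy, op_zero]
    · rw [E_zd]
    · rw [E_zy]
    · rw [add_comm, E_dy]

theorem primRelH [CharP k 2] (w : k) : PrimRel k (RelH k w) where
  Δ := by
    intro x y h
    show FreeAlgebra.lift k (fun i => prim k (gen k (RelH k w) i)) x =
      FreeAlgebra.lift k (fun i => prim k (gen k (RelH k w) i)) y
    cases h <;> simp only [map_mul, map_smul, FreeAlgebra.lift_ι_apply]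
    · rw [prim_sq, H_zz]
    · exact prim_comm _ _ (H_zY w)
    · rw [prim_sq, H_YY, prim_smul]
  ε := by
    intro x y h
    cases h <;> simp
  S := by
    intro x y h
    have hneg : ∀ x : Pres k (RelH k w), -x = x := fun x => by
      rw [neg_eq_iff_add_eq_zero]; exact char_two_smul k x
    simp only [hneg]
    cases h <;> simp only [map_mul, map_smul, FreeAlgebra.lift_ι_apply, ← op_mul, ← op_smul]
    · rw [H_zz]
    · rw [H_zY]
    · rw [H_YY]

theorem primRelA [CharP k 2] : PrimRel k (RelA k) where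
  Δ := by
    intro x y h
    show FreeAlgebra.lift k (fun i => prim k (gen k (RelA k) i)) x =
      FreeAlgebra.lift k (fun i => prim k (gen k (RelA k) i)) y
    cases h
    simp only [map_mul, map_zero, FreeAlgebra.lift_ι_apply]
    rw [prim_sq, A_dd, prim_zero]
  ε := by
    intro x y h
    cases h
    simp
  S := by
    intro x y h
    have hneg : ∀ x : Pres k (RelA k), -x = x := fun x => by
      rw [neg_eq_iff_add_eq_zero]; exact char_two_smul k x
    simp only [hneg]
    cases h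
    simp only [map_mul, map_zero, FreeAlgebra.lift_ι_apply, ← op_mul]
    rw [A_dd, op_zero]

end Pool.Agent.R710.Prim
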