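import Mathlib
import Pool.Agent.R710.Prim.Heis

/-!
# The complements are pairwise non-isomorphic
-/

set_option autoImplicit false

open scoped TensorProduct QuadraticAlgebra

namespace Pool.Agent.R710.Prim

open MulOpposite FreeAlgebra

section span

variable {k : Type*} [Field k] {B : Type*} [Ring B] [Algebra k B]

/-- A subspace that contains `1` and is closed under left multiplication by generators is
everything. -/
theorem eq_top_of_gen {G : Set B} (hG : Algebra.adjoin k G = ⊤) (T : Submodule k B)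
    (h1 : (1 : B) ∈ T) (hmul : ∀ g ∈ G, ∀ t ∈ T, g * t ∈ T) : T = ⊤ := by
  rw [eq_top_iff]
  rintro x -
  have hx : x ∈ Algebra.adjoin k G := by rw [hG]; trivial
  have key : ∀ t ∈ T, x * t ∈ T := by
    induction hx using Algebra.adjoin_induction with
    | mem x hx => exact hmul x hx
    | algebraMap r =>
      intro t ht
      rw [← Algebra.smul_def]
      exact T.smul_mem _ ht
    | add x y _ _ hx hy =>
      intro t ht
      rw [add_mul]
      exact T.add_mem (hx t ht) (hy t ht)
    | mul x y _ _ hx hy =>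
      intro t ht
      rw [mul_assoc]
      exact hx _ (hy t ht)
  have := key 1 h1
  rwa [mul_one] at this

theorem span_eq_top_of_gen {G : Set B} (hG : Algebra.adjoin k G = ⊤) {ι : Type*} (v : ι → B)
    (h1 : (1 : B) ∈ Submodule.span k (Set.range v))
    (hmul : ∀ g ∈ G, ∀ i, g * v i ∈ Submodule.span k (Set.range v)) :
    Submodule.span k (Set.range v) = ⊤ := by
  refine eq_top_of_gen hG _ h1 fun g hg t ht => ?_
  induction ht using Submodule.span_induction with
  | mem x hx =>
    obtain ⟨i, rfl⟩ := hx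
    exact hmul g hg i
  | zero => rw [mul_zero]; exact Submodule.zero_mem _
  | add x y _ _ hx hy => rw [mul_add]; exact Submodule.add_mem _ hx hy
  | smul c x _ hx => rw [mul_smul_comm]; exact Submodule.smul_mem _ _ hx

end span

variable {k : Type*} [Field k]

/-- spanning vectors of `H w` -/
def vH (w : k) : Fin 4 → Pres k (RelH k w) :=
  ![1, gen k (RelH k w) 0, gen k (RelH k w) 1, gen k (RelH k w) 0 * gen k (RelH k w) 1]

theorem span_vH (w : k) : Submodule.span k (Set.range (vH w)) = ⊤ := by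
  have hm : ∀ i, vH w i ∈ Submodule.span k (Set.range (vH w)) := fun i =>
    Submodule.subset_span ⟨i, rfl⟩
  refine span_eq_top_of_gen (adjoin_gen k _) _ (hm 0) ?_
  rintro _ ⟨j, rfl⟩ i
  fin_cases j <;> fin_cases i <;> simp only [Fin.zero_eta, Fin.mk_one, Fin.reduceFinMk]
  · exact (mul_one (gen k (RelH k w) 0)).symm ▸ hm 1
  · show gen k (RelH k w) 0 * gen k (RelH k w) 0 ∈ _
    rw [H_zz]; exact hm 1
  · exact hm 3
  · show gen k (RelH k w) 0 * (gen k (RelH k w) 0 * gen k (RelH k w) 1) ∈ _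
    rw [← mul_assoc, H_zz]; exact hm 3
  · exact (mul_one (gen k (RelH k w) 1)).symm ▸ hm 2
  · show gen k (RelH k w) 1 * gen k (RelH k w) 0 ∈ _
    rw [← H_zY]; exact hm 3
  · show gen k (RelH k w) 1 * gen k (RelH k w) 1 ∈ _
    rw [H_YY]; exact Submodule.smul_mem _ _ (hm 1)
  · show gen k (RelH k w) 1 * (gen k (RelH k w) 0 * gen k (RelH k w) 1) ∈ _
    rw [← mul_assoc, ← H_zY, mul_assoc, H_YY, mul_smul_comm, H_zz]
    exact Submodule.smul_mem _ _ (hm 1)

/-- spanning vectors of `A` -/
def vA (k : Type*) [Field k] : Fin 2 → Pres k (RelA k) := ![1, gen k (RelA k) ()]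

theorem span_vA : Submodule.span k (Set.range (vA k)) = ⊤ := by
  have hm : ∀ i, vA k i ∈ Submodule.span k (Set.range (vA k)) := fun i =>
    Submodule.subset_span ⟨i, rfl⟩
  refine span_eq_top_of_gen (adjoin_gen k _) _ (hm 0) ?_
  rintro _ ⟨⟨⟩, rfl⟩ i
  fin_cases i
  · exact (mul_one (gen k (RelA k) ())).symm ▸ hm 1
  · show gen k (RelA k) () * gen k (RelA k) () ∈ _
    rw [A_dd]; exact Submodule.zero_mem _

/-- the quotient of `H w` with `z = 1` -/
def phi1 (w : k) : Pres k (RelH k w) →ₐ[k] QuadraticAlgebra k w 0 :=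
  lift k _ ![1, ω] (by
    intro x y h
    cases h
    · simp
    · simp
    · simp [QuadraticAlgebra.omega_mul_omega_eq_add])

/-- the quotient of `H w` with `z = 0` -/
def phi0 (w : k) : Pres k (RelH k w) →ₐ[k] QuadraticAlgebra k 0 0 :=
  lift k _ ![0, ω] (by
    intro x y h
    cases h
    · simp
    · simp
    · simp [QuadraticAlgebra.omega_mul_omega_eq_add])

theorem phi1_z (w : k) : phi1 w (gen k (RelH k w) 0) = 1 := by
  rw [phi1, lift_gen]; rfl

theorem phi1_Y (w : k) : phi1 w (gen k (RelH k w) 1) = ω := by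
  rw [phi1, lift_gen]; rfl

theorem phi0_z (w : k) : phi0 w (gen k (RelH k w) 0) = 0 := by
  rw [phi0, lift_gen]; rfl

theorem phi0_Y (w : k) : phi0 w (gen k (RelH k w) 1) = ω := by
  rw [phi0, lift_gen]; rfl

theorem eq_zero_of_phi (w : k) (x : Pres k (RelH k w)) (h1 : phi1 w x = 0) (h0 : phi0 w x = 0) :
    x = 0 := by
  have hx : x ∈ Submodule.span k (Set.range (vH w)) := by rw [span_vH]; trivial
  rw [Submodule.mem_span_range_iff_exists_fun] at hx
  obtain ⟨c, rfl⟩ := hx
  simp only [Fin.sum_univ_four, vH, Matrix.cons_val_zero, Matrix.cons_val_one, Matrix.cons_val,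
    map_add, map_smul, map_one, map_mul, phi1_z, phi1_Y, phi0_z, phi0_Y] at h1 h0 ⊢
  have a1 := congrArg QuadraticAlgebra.re h1
  have a2 := congrArg QuadraticAlgebra.im h1
  have a3 := congrArg QuadraticAlgebra.re h0
  have a4 := congrArg QuadraticAlgebra.im h0
  simp at a1 a2 a3 a4
  rw [a3, zero_add] at a1
  rw [a4, zero_add] at a2
  rw [a1, a2, a3, a4]
  simp

theorem exists_of_hom {w w' : k} [CharP k 2] (f : Pres k (RelH k w) →ₐ[k] Pres k (RelH k w'))
    (hf : Function.Injective f) : ∃ γ δ : k, w = γ ^ 2 + δ ^ 2 * w' := by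
  set e := f (gen k (RelH k w) 0) with he
  set u := f (gen k (RelH k w) 1) with hu
  have h2 : (2 : k) = 0 := CharTwo.two_eq_zero
  have hee : e * e = e := by rw [he, ← map_mul, H_zz]
  have huu : u * u = w • e := by rw [hu, ← map_mul, H_YY, map_smul]
  have hne : e ≠ 0 := by
    intro h0
    have h3 : gen k (RelH k w) 0 = 0 := hf (by rw [map_zero]; exact h0)
    have h4 := phi1_z w
    rw [h3, map_zero] at h4
    exact zero_ne_one h4
  have key : ∀ a b c : k, a * a + c * (b * b) = a → a * b + b * a = b → (a = 0 ∨ a = 1) ∧ b = 0 := by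
    intro a b c h1 h3
    have hb : b = 0 := by
      rw [← h3]
      linear_combination (a * b) * h2
    subst hb
    have : a * (a - 1) = 0 := by linear_combination h1
    rcases mul_eq_zero.1 this with h | h
    · exact ⟨Or.inl h, rfl⟩
    · exact ⟨Or.inr (sub_eq_zero.1 h), rfl⟩
  have e0 := congrArg (phi0 w') hee
  have e1 := congrArg (phi1 w') hee
  have u0 := congrArg (phi0 w') huu
  have u1 := congrArg (phi1 w') huu
  rw [map_mul] at e0 e1 u0 u1
  rw [map_smul] at u0 u1
  have r0 := congrArg QuadraticAlgebra.re e0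
  have i0 := congrArg QuadraticAlgebra.im e0
  have r1 := congrArg QuadraticAlgebra.re e1
  have i1 := congrArg QuadraticAlgebra.im e1
  simp only [QuadraticAlgebra.re_mul, QuadraticAlgebra.im_mul, zero_mul, add_zero] at r0 i0 r1 i1
  have k0 := key _ _ 0 (by rw [zero_mul, add_zero]; exact r0) i0
  have k1 := key _ _ w' (by rw [← mul_assoc]; exact r1) i1
  have ru0 := congrArg QuadraticAlgebra.re u0
  have ru1 := congrArg QuadraticAlgebra.re u1
  simp only [QuadraticAlgebra.re_mul, QuadraticAlgebra.re_smul, zero_mul, add_zero,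
    smul_eq_mul] at ru0 ru1
  rcases k0.1 with h | h
  · have hz0 : phi0 w' e = 0 := by
      ext
      · exact h
      · exact k0.2
    rcases k1.1 with h' | h'
    · have hz1 : phi1 w' e = 0 := by
        ext
        · exact h'
        · exact k1.2
      exact absurd (eq_zero_of_phi w' e hz1 hz0) hne
    · rw [h', mul_one] at ru1
      exact ⟨(phi1 w' u).re, (phi1 w' u).im, by rw [← ru1]; ring⟩
  · rw [h, mul_one] at ru0
    exact ⟨(phi0 w' u).re, 0, by rw [← ru0]; ring⟩

section E

variable (k) in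
/-- vectors of `E` -/
def vE : Fin 8 → Pres k (RelE k) :=
  ![1, gen k (RelE k) 1, gen k (RelE k) 2, gen k (RelE k) 1 * gen k (RelE k) 2,
    gen k (RelE k) 0, gen k (RelE k) 0 * gen k (RelE k) 1, gen k (RelE k) 0 * gen k (RelE k) 2,
    gen k (RelE k) 0 * (gen k (RelE k) 1 * gen k (RelE k) 2)]

variable (k) in
/-- the quotient of `E` with `z = 1` -/
def mu1 : Pres k (RelE k) →ₐ[k] Matrix (Fin 2) (Fin 2) k :=
  lift k _ ![1, !![0, 1; 0, 0], !![0, 0; 1, 0]] (by
    intro x y h
    cases h <;> simp [Matrix.one_fin_two] <;> (ext i j; fin_cases i <;> fin_cases j <;> simp))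

variable (k) in
/-- the quotient of `E` with `z = 0` -/
def mu0 [CharP k 2] : Pres k (RelE k) →ₐ[k] QuadraticAlgebra (QuadraticAlgebra k 0 0) 0 0 :=
  lift k _ ![0, ⟨ω, 0⟩, ω] (by
    intro x y h
    cases h
    · simp
    · simp
      ext <;> simp
    · simp
      ext <;> simp
    · simp
    · simp
    · simp only [map_add, map_mul, FreeAlgebra.lift_ι_apply]
      rw [mul_comm]
      exact char_two_smul k _)

theorem linearIndependent_vE [CharP k 2] : LinearIndependent k (vE k) := by
  rw [Fintype.linearIndependent_iff]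
  intro c hc
  simp only [Fin.sum_univ_eight, vE, Matrix.cons_val_zero, Matrix.cons_val_one, Matrix.cons_val]
    at hc
  have h1 := congrArg (mu1 k) hc
  have h0 := congrArg (mu0 k) hc
  have m1z : mu1 k (gen k (RelE k) 0) = 1 := by rw [mu1, lift_gen]; rfl
  have m1d : mu1 k (gen k (RelE k) 1) = !![0, 1; 0, 0] := by rw [mu1, lift_gen]; rfl
  have m1y : mu1 k (gen k (RelE k) 2) = !![0, 0; 1, 0] := by rw [mu1, lift_gen]; rfl
  have m0z : mu0 k (gen k (RelE k) 0) = 0 := by rw [mu0, lift_gen]; rfl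
  have m0d : mu0 k (gen k (RelE k) 1) = ⟨ω, 0⟩ := by rw [mu0, lift_gen]; rfl
  have m0y : mu0 k (gen k (RelE k) 2) = ω := by rw [mu0, lift_gen]; rfl
  simp only [map_add, map_smul, map_mul, map_one, map_zero, m1z, m1d, m1y, m0z, m0d, m0y] at h1 h0
  have a1 := congrArg (fun z => z.re.re) h0
  have a2 := congrArg (fun z => z.re.im) h0
  have a3 := congrArg (fun z => z.im.re) h0
  have a4 := congrArg (fun z => z.im.im) h0
  have b1 := congrFun (congrFun h1 0) 0
  have b2 := congrFun (congrFun h1 0) 1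
  have b3 := congrFun (congrFun h1 1) 0
  have b4 := congrFun (congrFun h1 1) 1
  simp at a1 a2 a3 a4 b1 b2 b3 b4
  intro i
  fin_cases i
  · exact a1
  · exact a2
  · exact a3
  · exact a4
  · show c 4 = 0
    linear_combination b4 - a1
  · show c 5 = 0
    linear_combination b2 - a2
  · show c 6 = 0
    linear_combination b3 - a3
  · show c 7 = 0
    linear_combination b1 - a4 - b4

variable (k) in
/-- the inclusion of `A` -/
def iA : Pres k (RelA k) →ₐ[k] Pres k (RelE k) :=
  lift k _ (fun _ => gen k (RelE k) 1) (by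
    intro x y h
    cases h
    simp [E_dd])

/-- the inclusion of `H w` -/
def jH (w : k) : Pres k (RelH k w) →ₐ[k] Pres k (RelE k) :=
  lift k _ ![gen k (RelE k) 0, gen k (RelE k) 2 + w • gen k (RelE k) 1] (by
    intro x y h
    cases h
    · simp [E_zz]
    · simp [mul_add, add_mul, E_zy, E_zd]
    · simp only [map_mul, map_smul, FreeAlgebra.lift_ι_apply, Matrix.cons_val_one,
        Matrix.cons_val_zero]
      rw [← E_dy, mul_add, add_mul, add_mul, E_yy, smul_mul_smul_comm, E_dd, mul_smul_comm,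
        smul_mul_assoc, smul_add, smul_zero]
      abel)

variable (k) in
theorem iA_d : iA k (gen k (RelA k) ()) = gen k (RelE k) 1 := by rw [iA, lift_gen]

theorem jH_z (w : k) : jH w (gen k (RelH k w) 0) = gen k (RelE k) 0 := by
  rw [jH, lift_gen]; rfl

theorem jH_Y (w : k) : jH w (gen k (RelH k w) 1) = gen k (RelE k) 2 + w • gen k (RelE k) 1 := by
  rw [jH, lift_gen]; rfl

/-- the multiplication map -/
def mulMap (w : k) : Pres k (RelA k) ⊗[k] Pres k (RelH k w) →ₗ[k] Pres k (RelE k) :=
  LinearMap.mul' k _ ∘ₗ TensorProduct.map (iA k).toLinearMap (jH w).toLinearMap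

theorem mulMap_tmul (w : k) (a : Pres k (RelA k)) (h : Pres k (RelH k w)) :
    mulMap w (a ⊗ₜ h) = iA k a * jH w h := rfl

theorem mulMap_surjective (w : k) : Function.Surjective (mulMap w) := by
  let ψ : Pres k (RelH k w) × Pres k (RelH k w) →ₗ[k] Pres k (RelE k) :=
    LinearMap.coprod (jH w).toLinearMap
      (LinearMap.mulLeft k (gen k (RelE k) 1) ∘ₗ (jH w).toLinearMap)
  have hψ : ∀ h h', ψ (h, h') = jH w h + gen k (RelE k) 1 * jH w h' := fun h h' => by
    simp [ψ]
  have htop : LinearMap.range ψ = ⊤ := by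
    refine eq_top_of_gen (adjoin_gen k _) _ ⟨(1, 0), by rw [hψ]; simp⟩ ?_
    rintro _ ⟨i, rfl⟩ _ ⟨⟨h, h'⟩, rfl⟩
    rw [hψ]
    fin_cases i
    · refine ⟨(gen k (RelH k w) 0 * h, gen k (RelH k w) 0 * h'), ?_⟩
      rw [hψ, map_mul, map_mul, jH_z]
      simp only [Fin.zero_eta]
      rw [mul_add, ← mul_assoc, ← mul_assoc, ← E_zd]
    · refine ⟨(0, h), ?_⟩
      rw [hψ, map_zero]
      simp only [Fin.mk_one]
      rw [mul_add, ← mul_assoc (gen k (RelE k) 1) (gen k (RelE k) 1), E_dd, zero_mul, add_zero,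
        zero_add]
    · refine ⟨(gen k (RelH k w) 1 * h + gen k (RelH k w) 0 * h',
        (-w) • h - gen k (RelH k w) 1 * h'), ?_⟩
      rw [hψ]
      simp only [map_add, map_sub, map_smul, map_mul, jH_z, jH_Y, Fin.reduceFinMk]
      have h1 : gen k (RelE k) 2 * gen k (RelE k) 1 =
          gen k (RelE k) 0 - gen k (RelE k) 1 * gen k (RelE k) 2 := by
        rw [← E_dy]; abel
      rw [mul_add (gen k (RelE k) 2), ← mul_assoc (gen k (RelE k) 2) (gen k (RelE k) 1), h1]
      have h2 : gen k (RelE k) 1 * ((gen k (RelE k) 2 + w • gen k (RelE k) 1) * jH w h') =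
          gen k (RelE k) 1 * gen k (RelE k) 2 * jH w h' := by
        rw [← mul_assoc, mul_add, mul_smul_comm, E_dd, smul_zero, add_zero]
      rw [mul_sub, h2, mul_smul_comm, add_mul, smul_mul_assoc, sub_mul]
      module
  intro x
  obtain ⟨⟨h, h'⟩, rfl⟩ := LinearMap.range_eq_top.1 htop x
  refine ⟨1 ⊗ₜ h + gen k (RelA k) () ⊗ₜ h', ?_⟩
  rw [map_add, mulMap_tmul, mulMap_tmul, hψ, map_one, one_mul, iA_d]

instance : Module.Finite k (Pres k (RelA k)) :=
  ⟨by rw [← span_vA]; exact Submodule.fg_span (Set.finite_range _)⟩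

instance (w : k) : Module.Finite k (Pres k (RelH k w)) :=
  ⟨by rw [← span_vH]; exact Submodule.fg_span (Set.finite_range _)⟩

theorem finrank_A_le : Module.finrank k (Pres k (RelA k)) ≤ 2 := by
  rw [← finrank_top, ← span_vA]
  exact (finrank_range_le_card (vA k)).trans (by simp)

theorem finrank_H_le (w : k) : Module.finrank k (Pres k (RelH k w)) ≤ 4 := by
  rw [← finrank_top, ← span_vH]
  exact (finrank_range_le_card (vH w)).trans (by simp)

instance : Module.Finite k (Pres k (RelE k)) :=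
  Module.Finite.of_surjective (mulMap (0 : k)) (mulMap_surjective 0)

theorem bijective_of_finrank {V W : Type*} [AddCommGroup V] [Module k V] [AddCommGroup W]
    [Module k W] [Module.Finite k V] [Module.Finite k W] (f : V →ₗ[k] W)
    (hf : Function.Surjective f) (h : Module.finrank k V ≤ Module.finrank k W) :
    Function.Bijective f := by
  have h3 := LinearMap.finrank_le_finrank_of_surjective hf
  exact ⟨(LinearMap.injective_iff_surjective_of_finrank_eq_finrank (le_antisymm h h3)).2 hf, hf⟩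

theorem mulMap_bijective [CharP k 2] (w : k) : Function.Bijective (mulMap w) := by
  have h1 : 8 ≤ Module.finrank k (Pres k (RelE k)) := by
    have := (linearIndependent_vE (k := k)).fintype_card_le_finrank
    simpa using this
  have h2 : Module.finrank k (Pres k (RelA k) ⊗[k] Pres k (RelH k w)) ≤ 8 := by
    rw [Module.finrank_tensorProduct]
    exact Nat.mul_le_mul finrank_A_le (finrank_H_le w)
  exact bijective_of_finrank (V := Pres k (RelA k) ⊗[k] Pres k (RelH k w))
    (W := Pres k (RelE k)) (mulMap w) (mulMap_surjective w) (h2.trans h1)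

end E

section field

/-- `F₂(s, t)` -/
abbrev KK : Type := FractionRing (MvPolynomial (Fin 2) (ZMod 2))

/-- `s + s ^ (2 n) t` -/
noncomputable def wP (n : ℕ) : MvPolynomial (Fin 2) (ZMod 2) :=
  MvPolynomial.X 0 + MvPolynomial.X 0 ^ (2 * n) * MvPolynomial.X 1

/-- `s + s ^ (2 n) t` -/
noncomputable def wK (n : ℕ) : KK := algebraMap _ KK (wP n)

theorem pderiv_wP_zero (n : ℕ) : MvPolynomial.pderiv 0 (wP n) = 1 := by
  have h2 : (2 : MvPolynomial (Fin 2) (ZMod 2)) = 0 := CharTwo.two_eq_zero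
  rw [wP, map_add, Derivation.leibniz, Derivation.leibniz_pow]
  simp [MvPolynomial.pderiv_X, h2]

theorem pderiv_wP_one (n : ℕ) : MvPolynomial.pderiv 1 (wP n) = MvPolynomial.X 0 ^ (2 * n) := by
  rw [wP, map_add, Derivation.leibniz, Derivation.leibniz_pow]
  simp [MvPolynomial.pderiv_X]

theorem pderiv_sq_mul (i : Fin 2) (Q w : MvPolynomial (Fin 2) (ZMod 2)) :
    MvPolynomial.pderiv i (Q ^ 2 * w) = Q ^ 2 * MvPolynomial.pderiv i w := by
  have h2 : (2 : MvPolynomial (Fin 2) (ZMod 2)) = 0 := CharTwo.two_eq_zero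
  rw [Derivation.leibniz, Derivation.leibniz_pow]
  simp [h2]

theorem pderiv_sq (i : Fin 2) (Q : MvPolynomial (Fin 2) (ZMod 2)) :
    MvPolynomial.pderiv i (Q ^ 2) = 0 := by
  have := pderiv_sq_mul i Q 1
  rwa [mul_one, Derivation.map_one_eq_zero, mul_zero] at this

theorem eq_of_wK {m n : ℕ} {γ δ : KK} (h : wK m = γ ^ 2 + δ ^ 2 * wK n) : m = n := by
  obtain ⟨⟨p, q⟩, hp⟩ := IsLocalization.surj (nonZeroDivisors (MvPolynomial (Fin 2) (ZMod 2))) γ
  obtain ⟨⟨r, q'⟩, hr⟩ := IsLocalization.surj (nonZeroDivisors (MvPolynomial (Fin 2) (ZMod 2))) δ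
  simp only at hp hr
  have h1 : (q * q' : MvPolynomial (Fin 2) (ZMod 2)) ^ 2 * wP m =
      (p * q') ^ 2 + (r * q : MvPolynomial (Fin 2) (ZMod 2)) ^ 2 * wP n := by
    apply IsFractionRing.injective (MvPolynomial (Fin 2) (ZMod 2)) KK
    simp only [map_mul, map_pow, map_add, ← hp, ← hr]
    simp only [wK] at h
    rw [h]
    ring
  have h2 := congrArg (MvPolynomial.pderiv 0) h1
  have h3 := congrArg (MvPolynomial.pderiv 1) h1
  rw [pderiv_sq_mul, map_add, pderiv_sq, pderiv_sq_mul, pderiv_wP_zero, pderiv_wP_zero, zero_add,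
    mul_one, mul_one] at h2
  rw [pderiv_sq_mul, map_add, pderiv_sq, pderiv_sq_mul, pderiv_wP_one, pderiv_wP_one, zero_add,
    ← h2] at h3
  have hq : ((q * q' : MvPolynomial (Fin 2) (ZMod 2))) ^ 2 ≠ 0 :=
    pow_ne_zero 2 (mul_ne_zero (nonZeroDivisors.ne_zero q.2) (nonZeroDivisors.ne_zero q'.2))
  have h4 := mul_left_cancel₀ hq h3
  have h5 := congrArg MvPolynomial.totalDegree h4
  rw [MvPolynomial.totalDegree_X_pow, MvPolynomial.totalDegree_X_pow] at h5
  omega

end field

end Pool.Agent.R710.Prim
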